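import Mathlib

namespace Pool.Agent.Results.MP_f2d551_nt.Fermat

/-- `n` is a `μ`-Sondow number: for every prime `p ∣ n` with `p ^ s ∥ n`, `p ^ s ∣ n / p + μ`. -/
def Sondow (μ : ℤ) (n : ℕ) : Prop :=
  0 < n ∧ ∀ p s : ℕ, p.Prime → p ∣ n → p ^ s ∣ n → ¬ p ^ (s + 1) ∣ n →
    ((p : ℤ) ^ s) ∣ ((n / p : ℕ) : ℤ) + μ

lemma prime_pow_case (μ : ℤ) (q a : ℕ) (hq : q.Prime) (h : (q : ℤ) ^ (a + 1) ∣ q ^ a + μ) :
    Sondow μ (q ^ (a + 1)) := by
  refine ⟨pow_pos hq.pos _, fun p s hp hpn hs _ => ?_⟩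
  have hpq : p = q := (Nat.prime_dvd_prime_iff_eq hp hq).mp (hp.dvd_of_dvd_pow hpn)
  subst hpq
  have hsa : s ≤ a + 1 := (Nat.pow_dvd_pow_iff_le_right hp.one_lt).mp hs
  rw [pow_succ, Nat.mul_div_cancel _ hp.pos]
  push_cast
  exact (pow_dvd_pow _ hsa).trans h

lemma prime_case (μ : ℤ) (q : ℕ) (hq : q.Prime) (h : (q : ℤ) ∣ μ + 1) : Sondow μ q := by
  have := prime_pow_case μ q 0 hq (by simpa [add_comm] using h)
  simpa using this

lemma sqfree_case (μ : ℤ) (n : ℕ) (hn : Squarefree n)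
    (h : ∀ p ∈ n.primeFactors, (p : ℤ) ∣ ((n / p : ℕ) : ℤ) + μ) : Sondow μ n := by
  refine ⟨Nat.pos_of_ne_zero hn.ne_zero, fun p s hp hpn hs _ => ?_⟩
  have hs1 : s ≤ 1 := by
    by_contra hc
    have : p * p ∣ n := by
      rw [← pow_two]
      exact (pow_dvd_pow _ (by omega)).trans hs
    exact hp.one_lt.ne' (Nat.isUnit_iff.mp (hn p this))
  have := h p (Nat.mem_primeFactors.mpr ⟨hp, hpn, hn.ne_zero⟩)
  exact (pow_dvd_pow _ hs1).trans (by simpa using this)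

lemma pow_mod_145 (j : ℕ) : 2 ^ 2 ^ (3 * j + 3) % 145 = 111 := by
  induction j with
  | zero => norm_num
  | succ j ih =>
    rw [show 2 ^ (3 * (j + 1) + 3) = 2 ^ (3 * j + 3) * 8 by ring, pow_mul, Nat.pow_mod, ih]

theorem result (μ : ℤ) (h : μ ∉ ({0, 1, -1, 2, -2, 4, 16} : Set ℤ))
    (hF : ¬ ∃ k : ℕ, 5 ≤ k ∧ k % 3 ≠ 0 ∧ μ = 2 ^ 2 ^ k ∧ (2 ^ 2 ^ k + 1).Prime) :
    ∃ n : ℕ, 2 ≤ n ∧ n ≤ μ.natAbs ∧ Sondow μ n := by
  simp only [Set.mem_insert_iff, Set.mem_singleton_iff, not_or] at h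
  obtain ⟨h0, h1, h2, h3, h4, h5, h6⟩ := h
  rcases lt_or_gt_of_ne h0 with hneg | hpos
  · have hm : (μ + 1).natAbs ≠ 1 := by omega
    have hp := Nat.minFac_prime hm
    have hle := Nat.minFac_le (n := (μ + 1).natAbs) (by omega)
    exact ⟨_, hp.two_le, by omega,
      prime_case μ _ hp (Int.natCast_dvd.mpr (Nat.minFac_dvd _))⟩
  obtain ⟨m, rfl⟩ : ∃ m : ℕ, μ = m := ⟨μ.toNat, by omega⟩
  rw [Int.natAbs_natCast]
  by_cases hpr : (m + 1).Prime
  swap
  · have hp := Nat.minFac_prime (n := m + 1) (by omega)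
    have hlt : (m + 1).minFac < m + 1 :=
      (Nat.not_prime_iff_minFac_lt (by omega)).mp hpr
    refine ⟨_, hp.two_le, by omega, prime_case _ _ hp ?_⟩
    exact_mod_cast Nat.minFac_dvd (m + 1)
  obtain ⟨a, c, hc, rfl⟩ := Nat.exists_eq_two_pow_mul_odd (n := m) (by omega)
  obtain ⟨d, rfl⟩ := hc
  rcases Nat.eq_zero_or_pos d with rfl | hd
  swap
  · have hp : 1 ≤ 2 ^ a := Nat.one_le_two_pow
    refine ⟨2 ^ (a + 1), by rw [pow_succ]; omega, by rw [pow_succ]; nlinarith,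
      prime_pow_case _ 2 a Nat.prime_two ⟨d + 1, by push_cast; ring⟩⟩
  simp only [mul_zero, zero_add, mul_one] at *
  have ha : a ≠ 0 := by
    rintro rfl
    simp at h1
  obtain ⟨k, rfl⟩ := Nat.pow_of_pow_add_prime (by norm_num) ha hpr
  have hk3 : 3 ≤ k := by
    by_contra hc
    have : k = 0 ∨ k = 1 ∨ k = 2 := by omega
    rcases this with rfl | rfl | rfl <;> simp at h3 h5 h6
  by_cases hk : k % 3 = 0
  · obtain ⟨j, rfl⟩ : ∃ j, k = 3 * j + 3 := ⟨k / 3 - 1, by omega⟩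
    have e := pow_mod_145 j
    have big : 2 ^ 2 ^ 3 ≤ 2 ^ 2 ^ (3 * j + 3) :=
      Nat.pow_le_pow_right (by norm_num) (Nat.pow_le_pow_right (by norm_num) (by omega))
    refine ⟨145, by norm_num, by omega, sqfree_case _ _ (by decide +kernel) ?_⟩
    intro p hp
    have : Nat.primeFactors 145 = {5, 29} := by decide +kernel
    rw [this] at hp
    generalize 2 ^ 2 ^ (3 * j + 3) = M at *
    simp only [Finset.mem_insert, Finset.mem_singleton] at hp
    rcases hp with rfl | rfl <;> omega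
  by_cases hk4 : k = 4
  · subst hk4
    refine ⟨627, by norm_num, by norm_num, sqfree_case _ _ (by decide +kernel) ?_⟩
    intro p hp
    have : Nat.primeFactors 627 = {3, 11, 19} := by decide +kernel
    rw [this] at hp
    simp only [Finset.mem_insert, Finset.mem_singleton] at hp
    rcases hp with rfl | rfl | rfl <;> norm_num
  exact absurd ⟨k, by omega, hk, by push_cast; rfl, hpr⟩ hF

end Pool.Agent.Results.MP_f2d551_nt.Fermat
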